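import Pool.Agent.Helper53.Comp.GoalsK
import Pool.Agent.Helper35.Mono.D2

/-!
Packet K3 (MP_aa7fc1_ag): the twisted multiplicity formula.
-/

namespace Mono

namespace Comp

open Finset

namespace K3

variable {n : ℕ}

lemma lstarR_eq_zero {Z G : Finset (Fin n → ℤ)} (hG : G ⊆ Z) (w : Fin n → ℝ) {a : ℝ}
    (ha : ∀ z : ℤ, a ≠ z) : lstarR Z w a G = 0 := by
  unfold lstarR
  have : IsEmpty {b : Fin n → ℤ // ∃ c : (Fin n → ℤ) → ℝ, (∀ u ∈ G, 0 < c u ∧ c u < 1) ∧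
      w + toR b = ∑ u ∈ G, c u • toR u ∧ ∃ z : ℤ, ∑ u ∈ G \ Z, c u - a = z} := by
    constructor
    rintro ⟨b, c, -, -, z, hz⟩
    rw [Finset.sdiff_eq_empty_iff_subset.2 hG, Finset.sum_empty, zero_sub] at hz
    apply ha (-z)
    push_cast
    linarith
  exact Nat.card_of_isEmpty

open Classical in
lemma box_sumR (h : BoxCountR) (Φ : Fan n) {Z τ : Finset (Fin n → ℤ)} {V : Finset (Fin n)}
    {w : Fin n → ℝ} (hτ : τ ∈ Φ.faces) (hc : τ.card = (cs τ).card) (hV : V ⊆ cs τ)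
    (hw : ∀ i, i ∉ V → w i = 1) {a : ℝ} (ha : ∀ z : ℤ, a ≠ z) :
    (∑ G ∈ τ.powerset, lstarR Z w a G) =
      if ¬ τ ⊆ Z ∧ CondR Z V w a τ then volZ Z τ else 0 := by
  by_cases hZ : τ ⊆ Z
  · rw [if_neg (fun h => h.1 hZ)]
    apply Finset.sum_eq_zero
    intro G hG
    exact lstarR_eq_zero ((mem_powerset.1 hG).trans hZ) w ha
  · rw [h n Z τ V w hZ ((Φ.mem_faces.1 hτ).indep) hc hV hw a]
    by_cases hd : CondR Z V w a τ
    · rw [if_pos hd, if_pos ⟨hZ, hd⟩]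
    · rw [if_neg hd, if_neg (fun h => hd h.2)]

end K3

open K3 in
/-- K3. -/
theorem multFormulaR (h : BoxCountR) (hS : SpanT) : MultFormulaR := by
  intro n Φ Z S V w _ _ hw a ha
  classical
  -- the right hand side
  have e1 : ∀ G ∈ Φ.faces, (lstarR Z w a G : ℤ) * ellV Φ V (G ∪ S) =
      ∑ T : Finset (Fin n), ∑ τ ∈ Φ.mxT T, if V ⊆ T ∧ S ⊆ τ ∧ G ⊆ τ then
        (-1) ^ (n - τ.card) * (lstarR Z w a G : ℤ) else 0 := by
    intro G _
    unfold ellV
    rw [Finset.mul_sum, Finset.sum_filter]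
    apply Finset.sum_congr rfl
    intro T _
    by_cases hVT : V ⊆ T
    swap
    · rw [if_neg (fun h => hVT h.2)]
      symm
      apply Finset.sum_eq_zero
      intro τ _
      rw [if_neg (fun h => hVT h.1)]
    have e2 : ∀ τ ∈ Φ.mxT T, τ.card = T.card := fun τ hτ => (mem_filter.1 hτ).2.1
    have e3 : (∑ τ ∈ Φ.mxT T, if V ⊆ T ∧ S ⊆ τ ∧ G ⊆ τ then
        (-1) ^ (n - τ.card) * (lstarR Z w a G : ℤ) else 0) =
        (lstarR Z w a G : ℤ) * ((-1) ^ (n - T.card) *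
          (((Φ.mxT T).filter (fun τ => G ∪ S ⊆ τ)).card : ℤ)) := by
      rw [Finset.card_filter, Nat.cast_sum, Finset.mul_sum, Finset.mul_sum]
      apply Finset.sum_congr rfl
      intro τ hτ
      rw [e2 τ hτ]
      by_cases hc : S ⊆ τ ∧ G ⊆ τ
      · rw [if_pos ⟨hVT, hc⟩, if_pos (Finset.union_subset hc.2 hc.1)]
        push_cast
        ring
      · rw [if_neg (fun h => hc h.2), if_neg]
        · simp
        · intro hu
          exact hc ⟨Finset.subset_union_right.trans hu, Finset.subset_union_left.trans hu⟩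
    rw [e3]
    by_cases hT : cs (G ∪ S) ⊆ T
    · rw [if_pos ⟨hT, hVT⟩]
    · rw [if_neg (fun h => hT h.1)]
      have : (Φ.mxT T).filter (fun τ => G ∪ S ⊆ τ) = ∅ := by
        rw [Finset.filter_eq_empty_iff]
        intro τ hτ hsub
        apply hT
        intro i hi
        obtain ⟨u, hu, hui⟩ := (mem_filter.1 hi).2
        by_contra hiT
        exact hui ((mem_filter.1 hτ).2.2 u (hsub hu) i hiT)
      rw [this]
      simp
  rw [Finset.sum_congr rfl e1, Finset.sum_comm]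
  -- the inner sum
  have e4 : ∀ T : Finset (Fin n), (∑ G ∈ Φ.faces, ∑ τ ∈ Φ.mxT T, if V ⊆ T ∧ S ⊆ τ ∧ G ⊆ τ then
        (-1) ^ (n - τ.card) * (lstarR Z w a G : ℤ) else 0) =
      ∑ τ ∈ Φ.mxT T, if V ⊆ T ∧ S ⊆ τ ∧ ¬ τ ⊆ Z ∧ CondR Z V w a τ then
        (-1) ^ (n - τ.card) * (volZ Z τ : ℤ) else 0 := by
    intro T
    rw [Finset.sum_comm]
    apply Finset.sum_congr rfl
    intro τ hτ
    have hτf : τ ∈ Φ.faces := (mem_filter.1 hτ).1
    by_cases hSτ : V ⊆ T ∧ S ⊆ τ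
    · have hcs := D2.cs_eq_of_mxT hS Φ hτ
      have e5 : (∑ G ∈ Φ.faces, if V ⊆ T ∧ S ⊆ τ ∧ G ⊆ τ then
          (-1) ^ (n - τ.card) * (lstarR Z w a G : ℤ) else 0) =
          (-1) ^ (n - τ.card) * ((∑ G ∈ τ.powerset, lstarR Z w a G : ℕ) : ℤ) := by
        rw [Nat.cast_sum, Finset.mul_sum, ← Finset.sum_filter]
        apply Finset.sum_congr _ (fun _ _ => rfl)
        ext G
        simp only [mem_filter, mem_powerset]
        constructor
        · exact fun h => h.2.2.2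
        · intro hG
          refine ⟨?_, hSτ.1, hSτ.2, hG⟩
          rw [Φ.mem_faces]
          exact (Φ.mem_faces.1 hτf).subset Φ hG
      have hcard : τ.card = (cs τ).card := by
        rw [hcs]
        exact (mem_filter.1 hτ).2.1
      rw [e5, box_sumR h Φ hτf hcard (hcs ▸ hSτ.1) hw ha]
      by_cases hc : ¬ τ ⊆ Z ∧ CondR Z V w a τ
      · rw [if_pos hc, if_pos ⟨hSτ.1, hSτ.2, hc⟩]
      · rw [if_neg hc, if_neg (fun h => hc h.2.2)]
        simp
    · rw [if_neg (fun h => hSτ ⟨h.1, h.2.1⟩)]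
      apply Finset.sum_eq_zero
      intro G _
      rw [if_neg (fun h => hSτ ⟨h.1, h.2.1⟩)]
  rw [Finset.sum_congr rfl (fun T _ => e4 T)]
  -- regroup
  rw [Finset.sum_sigma']
  unfold multR
  rw [← Finset.sum_filter]
  symm
  apply Finset.sum_bij (fun p _ => p.2)
  · rintro ⟨T, τ⟩ hp
    simp only [mem_filter, mem_sigma, mem_univ, true_and] at hp
    obtain ⟨h1, h0, h2, h3, h4⟩ := hp
    have hcs := D2.cs_eq_of_mxT hS Φ h1
    refine mem_filter.2 ⟨(mem_filter.1 h1).1, h2, h3, ?_, hcs ▸ h0, h4⟩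
    rw [hcs]
    exact (mem_filter.1 h1).2.1
  · rintro ⟨T, τ⟩ hp ⟨T', τ'⟩ hp' heq
    simp only at heq
    subst heq
    simp only [mem_filter, mem_sigma, mem_univ, true_and] at hp hp'
    have h1 := D2.cs_eq_of_mxT hS Φ hp.1
    have h2 := D2.cs_eq_of_mxT hS Φ hp'.1
    rw [← h1, ← h2]
  · intro τ hτ
    obtain ⟨h1, h2, h3, h4, h5, h6⟩ := mem_filter.1 hτ
    refine ⟨⟨cs τ, τ⟩, ?_, rfl⟩
    simp only [mem_filter, mem_sigma, mem_univ, true_and]
    exact ⟨D2.mem_mxT_cs Φ h1 h4, h5, h2, h3, h6⟩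
  · rintro ⟨T, τ⟩ _
    rfl

end Comp

end Mono
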